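import Pool.Agent.Helper39.Trans.Goals

/-!
# Packet F of MP_549fdb_co: the number of types is bounded by the number of vertices
-/

namespace Pool.Agent.Helper45.Trans

open Finset Classical Matrix Pool.Agent.Helper39.Trans

section

variable {n : ℕ} {ι Λ κ : Type} [Fintype ι] [Fintype Λ] [Fintype κ] (A : Sys n ι Λ κ)

omit [Fintype Λ] [Fintype κ] in
theorem mem_W {l : Λ} {q : Fin n → ℝ} {v : ι} :
    v ∈ A.W l q ↔ v ∈ A.fib l ∧ ∀ w ∈ A.fib l, A.h v q ≤ A.h w q := by
  simp [Sys.W]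

omit [Fintype Λ] [Fintype κ] in
theorem W_nonempty (hF : A.Full) (l : Λ) (q : Fin n → ℝ) : (A.W l q).Nonempty := by
  have hne : (A.fib l).Nonempty := by
    obtain ⟨v, hv⟩ := hF l
    exact ⟨v, by simp [Sys.fib, hv]⟩
  obtain ⟨v, hv, hm⟩ := exists_min_image (A.fib l) (fun v => A.h v q) hne
  exact ⟨v, (mem_W A).2 ⟨hv, hm⟩⟩

omit [Fintype ι] [Fintype Λ] [Fintype κ] in
theorem h_add (v : ι) (z d : Fin n → ℝ) (s : ℝ) :
    A.h v (z + s • d) = A.h v z + s * (A.a v ⬝ᵥ d) := by
  simp [Sys.h, dotProduct_add, dotProduct_smul]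
  ring

omit [Fintype ι] [Fintype Λ] [Fintype κ] in
theorem bx_add (k : κ) (z d : Fin n → ℝ) (s : ℝ) :
    A.bx k (z + s • d) = A.bx k z + s * (A.ba k ⬝ᵥ d) := by
  simp [Sys.bx, dotProduct_add, dotProduct_smul]
  ring

omit [Fintype ι] [Fintype Λ] [Fintype κ] in
theorem h_cont (v : ι) : Continuous (A.h v) := by
  unfold Sys.h
  fun_prop

omit [Fintype ι] [Fintype Λ] [Fintype κ] in
theorem bx_cont (k : κ) : Continuous (A.bx k) := by
  unfold Sys.bx
  fun_prop

/-- The compact set of the points whose state is at least as special as that of `q`. -/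
def KK (q : Fin n → ℝ) : Set (Fin n → ℝ) :=
  {x | A.Box x ∧ ∀ l, ∀ v ∈ A.W l q, (∀ w ∈ A.fib l, A.h v x ≤ A.h w x) ∧ A.h v x ≤ 0 ∧
    (A.Act l q → A.h v x = 0)}

omit [Fintype Λ] [Fintype κ] in
theorem KK_closed (q : Fin n → ℝ) : IsClosed (KK A q) := by
  have h1 : KK A q = (⋂ k, {x | 0 ≤ A.bx k x}) ∩ ⋂ l, ⋂ v ∈ A.W l q,
      ((⋂ w ∈ A.fib l, {x | A.h v x ≤ A.h w x}) ∩ ({x | A.h v x ≤ 0} ∩
        (⋂ (_ : A.Act l q), {x | A.h v x = 0}))) := by
    ext x
    simp [KK, Sys.Box]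
  rw [h1]
  refine IsClosed.inter (isClosed_iInter fun k => isClosed_le continuous_const (bx_cont A k)) ?_
  refine isClosed_iInter fun l => isClosed_iInter fun v => isClosed_iInter fun _ => ?_
  refine IsClosed.inter (isClosed_iInter fun w => isClosed_iInter fun _ =>
    isClosed_le (h_cont A v) (h_cont A w)) (IsClosed.inter (isClosed_le (h_cont A v)
      continuous_const) (isClosed_iInter fun _ => isClosed_eq (h_cont A v) continuous_const))

omit [Fintype Λ] [Fintype κ] in
theorem KK_compact (hB : A.Bdd) (q : Fin n → ℝ) : IsCompact (KK A q) := by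
  obtain ⟨R, hR⟩ := hB
  have h1 : IsCompact (Set.pi Set.univ (fun _ : Fin n => Set.Icc (-R) R)) :=
    isCompact_univ_pi fun _ => isCompact_Icc
  refine h1.of_isClosed_subset (KK_closed A q) ?_
  intro x hx i _
  have := abs_le.1 (hR x hx.1 i)
  exact ⟨this.1, this.2⟩

omit [Fintype Λ] [Fintype κ] in
theorem mem_KK {q : Fin n → ℝ} (hq : A.Box q) (hI : ∀ l, ¬ A.In l q) : q ∈ KK A q := by
  refine ⟨hq, fun l v hv => ?_⟩
  have hv' := (mem_W A).1 hv
  refine ⟨hv'.2, ?_, ?_⟩
  · have h1 := hI l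
    simp only [Sys.In, not_forall, not_lt] at h1
    obtain ⟨w, hw, hw0⟩ := h1
    exact (hv'.2 w hw).trans hw0
  · rintro ⟨w, hw, hw0⟩
    have hw' := (mem_W A).1 hw
    exact le_antisymm (hw0 ▸ hv'.2 w hw'.1) (hw0 ▸ hw'.2 v hv'.1)

omit [Fintype Λ] [Fintype κ] in
/-- Points of `KK`: the minimal sets grow. -/
theorem W_sub {q x : Fin n → ℝ} (hx : x ∈ KK A q) (l : Λ) : A.W l q ⊆ A.W l x := by
  intro v hv
  exact (mem_W A).2 ⟨((mem_W A).1 hv).1, (hx.2 l v hv).1⟩

omit [Fintype Λ] [Fintype κ] in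
theorem Act_sub (hF : A.Full) {q x : Fin n → ℝ} (hx : x ∈ KK A q) (l : Λ) (hl : A.Act l q) :
    A.Act l x := by
  obtain ⟨v, hv⟩ := W_nonempty A hF l q
  exact ⟨v, W_sub A hx l hv, (hx.2 l v hv).2.2 hl⟩

omit [Fintype Λ] [Fintype κ] in
theorem not_In (hF : A.Full) {q x : Fin n → ℝ} (hx : x ∈ KK A q) (l : Λ) : ¬ A.In l x := by
  obtain ⟨v, hv⟩ := W_nonempty A hF l q
  intro h
  have h1 := h v ((mem_W A).1 hv).1
  have h2 := (hx.2 l v hv).2.1
  linarith

/-- Moving a little in a direction that preserves the tight constraints one stays in `KK`. -/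
theorem stay {q z d : Fin n → ℝ} (hz : z ∈ KK A q) (hd : A.Ker univ z d) :
    ∀ᶠ s in nhds (0 : ℝ), z + s • d ∈ KK A q := by
  have hc : ∀ f : (Fin n → ℝ) → ℝ, Continuous f → f z < 0 →
      ∀ᶠ s in nhds (0 : ℝ), f (z + s • d) < 0 := by
    intro f hf h0
    have h1 : Continuous fun s : ℝ => f (z + s • d) := by fun_prop
    have h2 : (fun s : ℝ => f (z + s • d)) 0 < 0 := by simpa using h0
    exact h1.continuousAt.eventually_lt continuousAt_const h2
  have hbox : ∀ᶠ s in nhds (0 : ℝ), ∀ k, 0 ≤ A.bx k (z + s • d) := by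
    rw [Filter.eventually_all]
    intro k
    rcases eq_or_lt_of_le (hz.1 k) with h0 | h0
    · have h1 : A.ba k ⬝ᵥ d = 0 := hd.2.2 k (by simp [Sys.Bt, ← h0])
      exact Filter.Eventually.of_forall fun s => by rw [bx_add, h1, ← h0]; simp
    · have h1 := hc (fun x => - A.bx k x) (by have := bx_cont A k; fun_prop) (by simpa using h0)
      filter_upwards [h1] with s hs
      linarith
  have hmin : ∀ᶠ s in nhds (0 : ℝ), ∀ v : ι, ∀ w : ι, v ∈ A.W (A.grp v) q →
      w ∈ A.fib (A.grp v) → A.h v (z + s • d) ≤ A.h w (z + s • d) := by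
    rw [Filter.eventually_all]
    intro v
    rw [Filter.eventually_all]
    intro w
    by_cases hv : v ∈ A.W (A.grp v) q
    · by_cases hw : w ∈ A.fib (A.grp v)
      · have hvz := W_sub A hz _ hv
        rcases eq_or_lt_of_le ((hz.2 _ v hv).1 w hw) with h0 | h0
        · have hwz : w ∈ A.W (A.grp v) z := by
            refine (mem_W A).2 ⟨hw, fun w' hw' => ?_⟩
            rw [← h0]
            exact (hz.2 _ v hv).1 w' hw'
          have h1 := hd.1 (A.grp v) (mem_univ _) v hvz w hwz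
          exact Filter.Eventually.of_forall fun s _ _ => by rw [h_add, h_add, h1, h0]
        · have h1 := hc (fun x => A.h v x - A.h w x)
            (by have := h_cont A v; have := h_cont A w; fun_prop) (by simpa using h0)
          filter_upwards [h1] with s hs _ _
          linarith
      · exact Filter.Eventually.of_forall fun s _ h => absurd h hw
    · exact Filter.Eventually.of_forall fun s h => absurd h hv
  have hneg : ∀ᶠ s in nhds (0 : ℝ), ∀ v : ι, v ∈ A.W (A.grp v) q →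
      A.h v (z + s • d) ≤ 0 ∧ (A.Act (A.grp v) q → A.h v (z + s • d) = 0) := by
    rw [Filter.eventually_all]
    intro v
    by_cases hv : v ∈ A.W (A.grp v) q
    · have hvz := W_sub A hz _ hv
      obtain ⟨-, h2, h3⟩ := hz.2 _ v hv
      rcases eq_or_lt_of_le h2 with h0 | h0
      · have h1 := hd.2.1 (A.grp v) (mem_univ _) ⟨v, hvz, h0⟩ v hvz
        exact Filter.Eventually.of_forall fun s _ => by rw [h_add, h1, h0]; simp
      · have h1 := hc (A.h v) (h_cont A v) h0
        filter_upwards [h1] with s hs _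
        exact ⟨hs.le, fun h => absurd (h3 h) h0.ne⟩
    · exact Filter.Eventually.of_forall fun s h => absurd h hv
  filter_upwards [hbox, hmin, hneg] with s h1 h2 h3
  refine ⟨h1, fun l v hv => ?_⟩
  have hl : A.grp v = l := by
    have := ((mem_W A).1 hv).1
    simpa [Sys.fib] using this
  subst hl
  exact ⟨fun w hw => h2 v w hv hw, h3 v hv⟩

/-- A vertex that is at least as special as `q`. -/
theorem exists_vtx (hL : LinFacts n κ) (hF : A.Full) (hG : A.GP) (hB : A.Bdd) {q : Fin n → ℝ}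
    (hq : A.Box q) (hI : ∀ l, ¬ A.In l q) : ∃ z ∈ KK A q, A.Vtx univ z := by
  have hcont : Continuous fun x : Fin n → ℝ => ∑ i, x i ^ 2 := by fun_prop
  obtain ⟨z, hz, hmax⟩ := (KK_compact A hB q).exists_isMaxOn ⟨q, mem_KK A hq hI⟩
    hcont.continuousOn
  refine ⟨z, hz, hz.1, (hL ι Λ A hF hG univ z hz.1).2.2.1 ?_⟩
  intro d hd
  have h1 := stay A hz hd
  have h2 : ∀ᶠ s in nhds (0 : ℝ), z + (-s) • d ∈ KK A q := by
    have h3 : Filter.Tendsto (fun s : ℝ => -s) (nhds 0) (nhds 0) := by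
      have : Continuous fun s : ℝ => -s := continuous_neg
      simpa using this.tendsto 0
    exact h3.eventually h1
  obtain ⟨ε, hε, hb⟩ := Metric.eventually_nhds_iff.1 (h1.and h2)
  have h4 := hb (y := ε / 2) (by
    rw [Real.dist_eq, sub_zero, abs_of_pos (by positivity)]; linarith)
  have h5 := hmax h4.1
  have h6 := hmax h4.2
  simp only [Set.mem_ofPred_eq] at h5 h6
  have e1 : ∑ i, (z + (ε / 2) • d) i ^ 2 + ∑ i, (z + (-(ε / 2)) • d) i ^ 2 =
      2 * ∑ i, z i ^ 2 + 2 * (ε / 2) ^ 2 * ∑ i, d i ^ 2 := by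
    rw [← sum_add_distrib, mul_sum, mul_sum, ← sum_add_distrib]
    refine sum_congr rfl fun i _ => ?_
    simp only [Pi.add_apply, Pi.smul_apply, smul_eq_mul]
    ring
  have h7 : 2 * (ε / 2) ^ 2 * ∑ i, d i ^ 2 ≤ 0 := by linarith
  have h8 : 0 < 2 * (ε / 2) ^ 2 := by positivity
  have h9 : ∑ i, d i ^ 2 ≤ 0 := by
    by_contra h
    push Not at h
    have := mul_pos h8 h
    linarith
  have h10 : ∑ i, d i ^ 2 = 0 := le_antisymm h9 (sum_nonneg fun i _ => sq_nonneg _)
  rw [sum_eq_zero_iff_of_nonneg (fun i _ => sq_nonneg _)] at h10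
  funext i
  simpa using h10 i (mem_univ i)

/-- The types that are less special than that of `z`. -/
def TT (z : Fin n → ℝ) : Set ((Λ → Finset ι) × Finset Λ) :=
  {t | (∀ l, t.1 l ⊆ A.W l z) ∧ (∀ l, (t.1 l).Nonempty) ∧ t.2 ⊆ A.Ig z}

theorem TT_card (z : Fin n → ℝ) (hz : A.cnt univ z ≤ n) :
    (TT A z).Finite ∧ (TT A z).ncard ≤ 2 ^ (3 * n) := by
  set U : Finset ι := (A.Jg z).biUnion fun l => A.W l z with hU
  have hUc : U.card ≤ 2 * ∑ l, ((A.W l z).card - 1) := by
    calc U.card ≤ ∑ l ∈ A.Jg z, (A.W l z).card := card_biUnion_le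
      _ ≤ ∑ l ∈ A.Jg z, 2 * ((A.W l z).card - 1) := by
          refine sum_le_sum fun l hl => ?_
          have : 2 ≤ (A.W l z).card := by simpa [Sys.Jg] using hl
          omega
      _ ≤ ∑ l, 2 * ((A.W l z).card - 1) :=
          sum_le_sum_of_subset (subset_univ _)
      _ = _ := by rw [mul_sum]
  have hIc : (A.Ig z).card ≤ n - ∑ l, ((A.W l z).card - 1) := by
    have h1 : A.cnt univ z = ∑ l, ((A.W l z).card - 1) + (A.Ig z).card + (A.Bt z).card := rfl
    omega
  have hsum : ∑ l, ((A.W l z).card - 1) ≤ n := by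
    have h1 : A.cnt univ z = ∑ l, ((A.W l z).card - 1) + (A.Ig z).card + (A.Bt z).card := rfl
    omega
  let F : (Λ → Finset ι) × Finset Λ → Finset ι × Finset Λ :=
    fun t => ((A.Jg z).biUnion fun l => t.1 l, t.2)
  have hmaps : Set.MapsTo F (TT A z) ((U.powerset ×ˢ (A.Ig z).powerset : Finset _) : Set _) := by
    rintro t ⟨h1, -, h3⟩
    simp only [F, coe_product, Set.mem_prod, mem_coe, mem_powerset]
    exact ⟨biUnion_mono fun l _ => h1 l, h3⟩
  have hdis : ∀ l l' : Λ, ∀ v, v ∈ A.W l z → v ∈ A.W l' z → l = l' := by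
    intro l l' v h1 h2
    have h1' := ((mem_W A).1 h1).1
    have h2' := ((mem_W A).1 h2).1
    simp only [Sys.fib, mem_filter, mem_univ, true_and] at h1' h2'
    rw [← h1', h2']
  have hinj : Set.InjOn F (TT A z) := by
    rintro t ⟨h1, h2, h3⟩ t' ⟨h1', h2', h3'⟩ he
    simp only [F, Prod.mk.injEq] at he
    refine Prod.ext ?_ he.2
    funext l
    by_cases hl : l ∈ A.Jg z
    · ext v
      constructor
      · intro hv
        have : v ∈ (A.Jg z).biUnion fun l => t'.1 l := by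
          rw [← he.1]
          exact mem_biUnion.2 ⟨l, hl, hv⟩
        obtain ⟨l', -, hv'⟩ := mem_biUnion.1 this
        rw [hdis l l' v (h1 l hv) (h1' l' hv')]
        exact hv'
      · intro hv
        have : v ∈ (A.Jg z).biUnion fun l => t.1 l := by
          rw [he.1]
          exact mem_biUnion.2 ⟨l, hl, hv⟩
        obtain ⟨l', -, hv'⟩ := mem_biUnion.1 this
        rw [hdis l l' v (h1' l hv) (h1 l' hv')]
        exact hv'
    · have hc : (A.W l z).card ≤ 1 := by
        simp only [Sys.Jg, mem_filter, mem_univ, true_and, not_le] at hl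
        omega
      have e1 : t.1 l = A.W l z :=
        eq_of_subset_of_card_le (h1 l) (hc.trans (h2 l).card_pos)
      have e2 : t'.1 l = A.W l z :=
        eq_of_subset_of_card_le (h1' l) (hc.trans (h2' l).card_pos)
      rw [e1, e2]
  have hfin : (TT A z).Finite := Set.Finite.of_injOn hmaps hinj (finite_toSet _)
  refine ⟨hfin, ?_⟩
  have h1 := Set.ncard_le_ncard_of_injOn F hmaps hinj (finite_toSet _)
  rw [Set.ncard_coe_finset, card_product, card_powerset, card_powerset, ← pow_add] at h1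
  refine h1.trans (Nat.pow_le_pow_right (by norm_num) ?_)
  omega

end

/-- Packet F. -/
theorem classBound (n : ℕ) (κ : Type) [Fintype κ] (hL : LinFacts n κ) (hC : CountNonpure n κ) :
    ClassBound n κ := by
  obtain ⟨_, hC⟩ := hC
  refine ⟨2 ^ (3 * n), ?_⟩
  intro ι Λ _ _ A hF hG hB
  have hfin : {q | A.Vtx univ q ∧ ∀ l, ¬ A.In l q}.Finite :=
    (hC ι Λ A hF hG).1.subset fun q hq => hq.1
  obtain ⟨V, hV⟩ := hfin.exists_finset_coe
  have hVm : ∀ z ∈ V, A.Vtx univ z := by
    intro z hz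
    have : z ∈ (V : Set (Fin n → ℝ)) := hz
    rw [hV] at this
    exact this.1
  have hsub : A.typ '' {q | A.Box q ∧ ∀ l, ¬ A.In l q} ⊆
      ((V.biUnion fun z => if h : (TT A z).Finite then h.toFinset else ∅ : Finset _) :
        Set ((Λ → Finset ι) × Finset Λ)) := by
    rintro _ ⟨q, ⟨hq, hI⟩, rfl⟩
    obtain ⟨z, hz, hv⟩ := exists_vtx A hL hF hG hB hq hI
    have hzV : z ∈ V := by
      have : z ∈ (V : Set (Fin n → ℝ)) := by
        rw [hV]
        exact ⟨hv, not_In A hF hz⟩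
      exact this
    rw [mem_coe, mem_biUnion]
    refine ⟨z, hzV, ?_⟩
    rw [dif_pos (TT_card A z hv.2.le).1, Set.Finite.mem_toFinset]
    refine ⟨W_sub A hz, fun l => W_nonempty A hF l q, ?_⟩
    intro l hl
    simp only [Sys.typ, Sys.Ig, mem_filter, mem_univ, true_and] at hl ⊢
    exact Act_sub A hF hz l hl
  refine (Set.ncard_le_ncard hsub (finite_toSet _)).trans ?_
  rw [Set.ncard_coe_finset, ← hV, Set.ncard_coe_finset, mul_comm]
  refine card_biUnion_le_card_mul _ _ _ fun z hz => ?_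
  have h1 := TT_card A z (hVm z hz).2.le
  rw [dif_pos h1.1, ← Set.ncard_eq_toFinset_card _ h1.1]
  exact h1.2

end Pool.Agent.Helper45.Trans
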